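import Pool.Agent.H60.LQ.Cfg
import Pool.Agent.H91.KTH.UFD

/-!
# (DIR2): `Y - C₂` is parallel to the line 1
-/

set_option autoImplicit false

namespace Pool.LQ

open Finset Real
open Pool.Agent.H49.Ent Pool.Agent.H32.Dense Pool.KTH
open Pool.Agent.H91.KTH (Ex_gp_nonneg Ex_log_nonneg)

variable {d J : ℕ}

/-- The direction of a line, from two points whose difference is `(c / M) v` up to a rounding. -/
lemma v_of_two {Ω : Type} [Fintype Ω] {q : Ω → ℝ} (hq : ∀ w, 0 ≤ q w) (h1 : ∑ w, q w = 1)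
    (v : Ω → Fin d → ℤ) (hv : ∀ w, 0 < q w → ∀ k, |v w k| ≤ ((2 ^ J : ℕ) : ℤ))
    (x : Ω → Fin d → ℝ) (c : Ω → ℤ) {T : Type*} (W : Ω → T)
    (hW : ∀ w w', 0 < q w → 0 < q w' → W w = W w' → c w = c w' ∧ rd (x w) = rd (x w') ∧
      rd (fun k => x w k + (c w : ℝ) / (2 ^ J : ℕ) * v w k) =
        rd (fun k => x w' k + (c w' : ℝ) / (2 ^ J : ℕ) * v w' k)) :
    CH q v W ≤ d * (2 + Ex q (fun w => Real.log (1 + 2 ^ J / max 1 |(c w : ℝ)|))) := by
  have h2 := CH_le_vec hq h1 v W (fun w => 2 * (((2 ^ J : ℕ) : ℝ) / max |(c w : ℝ)| 1))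
    (fun w w' a b e k => by
      obtain ⟨e1, e2, e3⟩ := hW w w' a b e
      refine gap_le (by positivity) (hv w a k) (hv w' b k) ?_
      have f1 := rd_close e3 k
      have f2 := rd_close e2 k
      rw [e1] at f1 ⊢
      have : (c w' : ℝ) / ((2 ^ J : ℕ) : ℝ) * ((v w k : ℝ) - v w' k) =
          (x w k + (c w' : ℝ) / ((2 ^ J : ℕ) : ℝ) * v w k -
          (x w' k + (c w' : ℝ) / ((2 ^ J : ℕ) : ℝ) * v w' k)) - (x w k - x w' k) := by ring
      rw [this]
      refine (abs_sub _ _).trans ?_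
      linarith)
  refine h2.trans ?_
  have hd : (0 : ℝ) ≤ d := Nat.cast_nonneg d
  refine mul_le_mul_of_nonneg_left ?_ hd
  calc Ex q (fun w => Real.log (2 * (2 * (((2 ^ J : ℕ) : ℝ) / max |(c w : ℝ)| 1)) + 1)) ≤
      Ex q (fun w => 2 + Real.log (1 + 2 ^ J / max 1 |(c w : ℝ)|)) := by
        refine Ex_mono hq fun w _ => ?_
        have := log_gap (y := ((2 ^ J : ℕ) : ℝ) / max |(c w : ℝ)| 1) (by positivity)
        rw [max_comm] at this
        push_cast at this ⊢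
        rw [max_comm]
        exact this
    _ = 2 + Ex q (fun w => Real.log (1 + 2 ^ J / max 1 |(c w : ℝ)|)) := by
        rw [Ex_add, Ex_const h1]

theorem dir2 (hCGP : CGP2Stmt) : DIR2Stmt := by
  intro d
  obtain ⟨C, C0, hC⟩ := hCGP d
  refine ⟨d * (C + 2), by positivity, ?_⟩
  intro J F
  have h1 := v_of_two (J := J) F.hq F.h1 F.v₁ F.hv₁
    (fun w => pos (2 ^ J) (F.u₂ w) (F.v₂ w) (F.tr w)) F.c₂
    (fun w => (F.Y w, F.C₂ w, F.Z w)) (by
      intro w w' _ _ h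
      simp only [Cf.Y, Cf.C₂, pp, Prod.mk.injEq] at h
      obtain ⟨⟨a, b⟩, ⟨c, e⟩, _⟩ := h
      refine ⟨by omega, e, ?_⟩
      unfold xf at b
      exact b)
  have h2 := hC J F
  have n1 := Ex_log_nonneg F.hq (fun w => |(F.c w : ℝ)| / 2 ^ J) (fun w => by positivity)
  have n2 := Ex_log_nonneg F.hq (fun w => 2 ^ J / max 1 |(F.c w : ℝ)|) (fun w => by positivity)
  have n3 := Ex_log_nonneg F.hq (fun w => |(F.c₂ w : ℝ)| / 2 ^ J) (fun w => by positivity)
  have h3 : Ex F.q (fun w => Real.log (1 + 2 ^ J / max 1 |(F.c₂ w : ℝ)|)) ≤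
      C * (en F + 1 + Real.log (J + 2)) := by
    unfold Cf.big Cf.sml at h2
    linarith
  have hlog : 0 ≤ Real.log ((J : ℝ) + 2) := Real.log_nonneg (by
    have : (0 : ℝ) ≤ J := Nat.cast_nonneg J
    linarith)
  have hen : 0 ≤ en F := by
    have n0 := Ex_gp_nonneg (J := J) F.hq F.t F.s
    have n2 := Ex_gp_nonneg (J := J) F.hq F.t₁ F.t
    have n3 := Ex_gp_nonneg (J := J) F.hq F.t₁ F.s
    have n4 := Ex_gp_nonneg (J := J) F.hq F.r F.t
    have n5 := Ex_gp_nonneg (J := J) F.hq F.r F.s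
    have n6 := Ex_gp_nonneg (J := J) F.hq F.r F.t₁
    have n7 := Ex_gp_nonneg (J := J) F.hq F.tr F.s
    have n8 := Ex_gp_nonneg (J := J) F.hq F.ta F.s
    have n9 := Ex_gp_nonneg (J := J) F.hq F.ta F.tr
    have n10 := Ex_gp_nonneg (J := J) F.hq F.ta F.TO
    unfold en Cf.eg
    linarith
  show CH F.q F.v₁ (fun w => (F.Y w, F.C₂ w, F.Z w)) ≤
    d * (C + 2) * (en F + 1 + Real.log (J + 2))
  refine h1.trans ?_
  have hd : (0 : ℝ) ≤ d := Nat.cast_nonneg d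
  rw [mul_assoc]
  refine mul_le_mul_of_nonneg_left ?_ hd
  have h4 : (C + 2) * (en F + 1 + Real.log ((J : ℝ) + 2)) =
      C * (en F + 1 + Real.log (J + 2)) + 2 * (en F + 1 + Real.log (J + 2)) := by ring
  linarith

end Pool.LQ
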