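import Pool.Agent.H60.LQ.Cfg
import Pool.Agent.H91.KTH.UFD

/-!
# (UFD2): the second coefficient is uniform, explicit coefficients
-/

set_option autoImplicit false

namespace Pool.LQ

open Finset Real
open Pool.Agent.H49.Ent Pool.Agent.H32.Dense Pool.KTH
open Pool.Agent.H91.KTH (Ex_gp_nonneg Ex_log_nonneg c_of_c₂ tr_of_TY)

variable {d J : ℕ}

lemma en_ge_last (F : Cf d J) : F.eg F.ta F.TO ≤ en F := by
  have n0 := Ex_gp_nonneg (J := J) F.hq F.t F.s
  have n2 := Ex_gp_nonneg (J := J) F.hq F.t₁ F.t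
  have n3 := Ex_gp_nonneg (J := J) F.hq F.t₁ F.s
  have n4 := Ex_gp_nonneg (J := J) F.hq F.r F.t
  have n5 := Ex_gp_nonneg (J := J) F.hq F.r F.s
  have n6 := Ex_gp_nonneg (J := J) F.hq F.r F.t₁
  have n7 := Ex_gp_nonneg (J := J) F.hq F.tr F.s
  have n8 := Ex_gp_nonneg (J := J) F.hq F.ta F.s
  have n9 := Ex_gp_nonneg (J := J) F.hq F.ta F.tr
  unfold en Cf.eg
  linarith

lemma en_nonneg' (F : Cf d J) : 0 ≤ en F :=
  le_trans (Ex_gp_nonneg (J := J) F.hq F.ta F.TO) (en_ge_last F)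

theorem ufd2 (hKPS : KPS2Stmt) (hUPT : UPT2Stmt) : UFD2Stmt := by
  intro d
  obtain ⟨C3, C30, hC3⟩ := hKPS d
  obtain ⟨-, ⟨C5, C50, hC5⟩, -, -⟩ := hUPT d
  -- the facts
  have fct : ∀ (J : ℕ) (F : Cf d J) (L sb K G : ℝ), Okk F L sb K G →
      (lm J - CH F.q F.c (fun w => (F.v3 w, (F.t w, F.s w, F.tr w, F.ta w), F.Z w)) ≤ eta F) ∧
      (lm J - K ≤ CH F.q F.tr (fun w => (F.v3 w, (F.t w, F.s w, F.ta w), F.Z w))) ∧
      (lm J - K ≤ CH F.q F.ta (fun w => (F.v3 w, (F.t w, F.s w, F.tr w), F.Z w))) ∧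
      (lm J - CH F.q F.c₂ (fun w => (F.v3 w, (F.t w, F.s w, F.tr w, F.ta w), F.Z w)) ≤
        eta F + (C3 + 1) * (G + 1 + Real.log (J + 2))) ∧
      F.eg F.ta F.TO ≤ G + 1 + Real.log (J + 2) ∧
      (∀ (T : Type) (W : F.Ω → T), Det F.q W F.Z → CH F.q F.c₂ W ≤
        lm J + C5 * (G + 1 + Real.log (J + 2))) ∧ 1 ≤ G + 1 + Real.log (J + 2) := by
    intro J F L sb K G hF
    have g3 := hC3 J F
    have g5 := hC5 J F
    have hen := en_nonneg' F
    have hge := hF.ge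
    have hlog : 0 ≤ Real.log ((J : ℝ) + 2) := Real.log_nonneg (by
      have : (0 : ℝ) ≤ J := Nat.cast_nonneg J
      linarith)
    have hE : en F + 1 + Real.log (J + 2) ≤ G + 1 + Real.log (J + 2) := by linarith
    have hE1 : 1 ≤ G + 1 + Real.log ((J : ℝ) + 2) := by linarith
    have hc : lm J - CH F.q F.c (fun w => (F.v3 w, (F.t w, F.s w, F.tr w, F.ta w), F.Z w)) ≤
        eta F := by
      have := hF.ci
      unfold eta
      linarith
    refine ⟨hc, ?_, ?_, ?_, ?_, ?_, hE1⟩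
    · have := CH_mono_cond F.hq (X := F.tr)
        (W' := fun w => (F.v3 w, (F.t w, F.s w), (F.t₁ w, F.r w, F.ta w), F.Z w))
        (W := fun w => (F.v3 w, (F.t w, F.s w, F.ta w), F.Z w)) (by
          intro w w' _ _ h
          simp only [Prod.mk.injEq] at h ⊢
          tauto)
      linarith [hF.ctr]
    · have := CH_mono_cond F.hq (X := F.ta)
        (W' := fun w => (F.v3 w, (F.t w, F.s w), (F.t₁ w, F.r w, F.tr w), F.Z w))
        (W := fun w => (F.v3 w, (F.t w, F.s w, F.tr w), F.Z w)) (by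
          intro w w' _ _ h
          simp only [Prod.mk.injEq] at h ⊢
          tauto)
      linarith [hF.cta]
    · have b1 := CH_le_add F.hq F.c F.c₂
        (fun w => (F.v3 w, (F.t w, F.s w, F.tr w, F.ta w), F.Z w))
      have b2 := c_of_c₂ F (fun w => (F.v3 w, (F.t w, F.s w, F.tr w, F.ta w), F.Z w)) (by
        intro w w' _ _ h
        simp only [Prod.mk.injEq] at h
        obtain ⟨_, ⟨_, h1, h2, h3⟩, _⟩ := h
        unfold Cf.k₂
        rw [h1, h2, h3])
      have n1 := Ex_log_nonneg F.hq (fun w => |F.k₁ w|) (fun w => abs_nonneg _)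
      have n2 := Ex_log_nonneg F.hq (fun w => |F.k₁ w|⁻¹) (fun w => by positivity)
      have n3 := Ex_log_nonneg F.hq (fun w => |F.k₂ w|) (fun w => abs_nonneg _)
      have b3 : Ex F.q (fun w => Real.log (1 + |F.k₂ w|⁻¹)) ≤
          C3 * (G + 1 + Real.log (J + 2)) := by
        have := mul_le_mul_of_nonneg_left hE C30
        linarith
      have b4 : (C3 + 1) * (G + 1 + Real.log ((J : ℝ) + 2)) =
          C3 * (G + 1 + Real.log (J + 2)) + (G + 1 + Real.log (J + 2)) := by ring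
      linarith
    · have := en_ge_last F
      linarith
    · intro T W hW
      have := CH_mono_cond F.hq (X := F.c₂) hW
      have := mul_le_mul_of_nonneg_left hE C50
      linarith
  refine ⟨⟨C3 + 1, by linarith, ?_⟩, ⟨C3 + 1, by linarith, ?_⟩,
    ⟨C3 + C5 + 1, by linarith, ?_⟩, ⟨6, by norm_num, ?_⟩⟩
  · intro J F L sb K G hF
    obtain ⟨a1, a2, a3, a4, a5, a7, hE1⟩ := fct J F L sb K G hF
    have c1 := CH_chain F.hq F.c₂ F.tr (fun w => (F.v3 w, (F.t w, F.s w, F.ta w), F.Z w))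
    have c2 : CH F.q (fun w => (F.c₂ w, F.tr w))
        (fun w => (F.v3 w, (F.t w, F.s w, F.ta w), F.Z w)) =
        CH F.q (fun w => (F.tr w, F.c₂ w)) (fun w => (F.v3 w, (F.t w, F.s w, F.ta w), F.Z w)) := by
      refine CH_congr F.hq ?_ ?_ ?_ ?_ <;>
      · intro w w' _ _ h
        simp only [Prod.mk.injEq] at h ⊢
        tauto
    have c3 : CH F.q F.c₂ (fun w => (F.tr w, F.v3 w, (F.t w, F.s w, F.ta w), F.Z w)) =
        CH F.q F.c₂ (fun w => (F.v3 w, (F.t w, F.s w, F.tr w, F.ta w), F.Z w)) := by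
      refine CH_congr F.hq ?_ ?_ ?_ ?_ <;>
      · intro w w' _ _ h
        simp only [Prod.mk.injEq] at h ⊢
        tauto
    show 2 * lm J - CH F.q (fun w => (F.tr w, F.c₂ w))
      (fun w => (F.v3 w, (F.t w, F.s w, F.ta w), F.Z w)) - eta F ≤
      1 * K + (C3 + 1) * (G + 1 + Real.log (J + 2))
    linarith
  · intro J F L sb K G hF
    obtain ⟨a1, a2, a3, a4, a5, a7, hE1⟩ := fct J F L sb K G hF
    have := CH_mono_cond F.hq (X := F.c₂)
      (W' := fun w => (F.v3 w, (F.t w, F.s w, F.tr w, F.ta w), F.Z w))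
      (W := fun w => (F.v3 w, (F.t w, F.s w, F.tr w), F.Z w)) (by
        intro w w' _ _ h
        simp only [Prod.mk.injEq] at h ⊢
        tauto)
    show lm J - CH F.q F.c₂ (fun w => (F.v3 w, (F.t w, F.s w, F.tr w), F.Z w)) - eta F ≤
      0 * K + (C3 + 1) * (G + 1 + Real.log (J + 2))
    linarith
  · intro J F L sb K G hF
    obtain ⟨a1, a2, a3, a4, a5, a7, hE1⟩ := fct J F L sb K G hF
    have c1 := CH_bayes F.hq F.ta F.c₂ (fun w => (F.v3 w, (F.t w, F.s w, F.tr w), F.Z w))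
    have c2 : CH F.q F.ta (fun w => (F.c₂ w, F.v3 w, (F.t w, F.s w, F.tr w), F.Z w)) =
        CH F.q F.ta (fun w => (F.v3 w, (F.t w, F.s w, F.tr w, F.c₂ w), F.Z w)) := by
      refine CH_congr F.hq ?_ ?_ ?_ ?_ <;>
      · intro w w' _ _ h
        simp only [Prod.mk.injEq] at h ⊢
        tauto
    have c3 : CH F.q F.c₂ (fun w => (F.ta w, F.v3 w, (F.t w, F.s w, F.tr w), F.Z w)) =
        CH F.q F.c₂ (fun w => (F.v3 w, (F.t w, F.s w, F.tr w, F.ta w), F.Z w)) := by
      refine CH_congr F.hq ?_ ?_ ?_ ?_ <;>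
      · intro w w' _ _ h
        simp only [Prod.mk.injEq] at h ⊢
        tauto
    have c4 := a7 _ (fun w => (F.v3 w, (F.t w, F.s w, F.tr w), F.Z w)) (by
      intro w w' _ _ h
      simp only [Prod.mk.injEq] at h
      exact h.2.2)
    have c5 : (C3 + C5 + 1) * (G + 1 + Real.log ((J : ℝ) + 2)) =
        (C3 + 1) * (G + 1 + Real.log (J + 2)) + C5 * (G + 1 + Real.log (J + 2)) := by ring
    show lm J - CH F.q F.ta (fun w => (F.v3 w, (F.t w, F.s w, F.tr w, F.c₂ w), F.Z w)) - eta F ≤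
      1 * K + (C3 + C5 + 1) * (G + 1 + Real.log (J + 2))
    linarith
  · intro J F L sb K G hF
    obtain ⟨a1, a2, a3, a4, a5, a7, hE1⟩ := fct J F L sb K G hF
    -- `tr` is uniform given `c`
    have c1 := CH_bayes F.hq F.tr F.c (fun w => (F.v3 w, (F.t w, F.s w, F.ta w), F.Z w))
    have c2 : CH F.q F.c (fun w => (F.tr w, F.v3 w, (F.t w, F.s w, F.ta w), F.Z w)) =
        CH F.q F.c (fun w => (F.v3 w, (F.t w, F.s w, F.tr w, F.ta w), F.Z w)) := by
      refine CH_congr F.hq ?_ ?_ ?_ ?_ <;>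
      · intro w w' _ _ h
        simp only [Prod.mk.injEq] at h ⊢
        tauto
    -- the time of `Y`
    have c4 := CH_le_add F.hq F.tr F.TY
      (fun w => (F.c w, F.v3 w, (F.t w, F.s w, F.ta w), F.Z w))
    have c5 := tr_of_TY F (fun w => (F.c w, F.v3 w, (F.t w, F.s w, F.ta w), F.Z w)) (by
      intro w w' _ _ h
      simp only [Prod.mk.injEq] at h
      tauto)
    have c6 := CH_chain F.hq F.TY F.c (fun w => (F.v3 w, (F.t w, F.s w, F.ta w), F.Z w))
    have c7 : CH F.q (fun w => (F.TY w, F.c w))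
        (fun w => (F.v3 w, (F.t w, F.s w, F.ta w), F.Z w)) =
        CH F.q (fun w => (F.c w, F.TY w)) (fun w => (F.v3 w, (F.t w, F.s w, F.ta w), F.Z w)) := by
      refine CH_congr F.hq ?_ ?_ ?_ ?_ <;>
      · intro w w' _ _ h
        simp only [Prod.mk.injEq] at h ⊢
        tauto
    show 2 * lm J - CH F.q (fun w => (F.c w, F.TY w))
      (fun w => (F.v3 w, (F.t w, F.s w, F.ta w), F.Z w)) - eta F ≤
      1 * K + 6 * (G + 1 + Real.log (J + 2))
    linarith

end Pool.LQ
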