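import Pool.Agent.H60.LQ.Two
import Pool.Agent.H80.LQ.CFG2
import Pool.Agent.H36.Dense.L3

/-!
# LQ0, row CFG3: the configuration of a family, with spreads and the energy of `s`
-/

set_option autoImplicit false

namespace Pool.LQ

open Finset Real
open Pool.Agent.H49.Ent Pool.Agent.H32.Dense Pool.KTH

namespace CFG391

variable {d J : ℕ} (G : Fm d J)

/-- The energy of `s` given the line 0 is the energy of the family. -/
theorem gf_s : Gf (2 ^ J) (CFG80.cfg G).q (bv (CFG80.cfg G).Z (CFG80.cfg G).v₀)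
    (CFG80.cfg G).s = Gf (2 ^ J) G.p (bv G.Z G.v) G.τ := by
  have h := G.isFam
  have hp := h.hp
  have hq := pC_nonneg (M := 2 ^ J) (Z := G.Z) (v := G.v) (u := G.u) (τ := G.τ) hp
  have hsup : ∀ w, 0 < pC (2 ^ J) G.p G.Z G.v G.u G.τ w →
      bv (CFG80.cfg G).Z (CFG80.cfg G).v₀ w = bv G.Z G.v w.1.1.1.2 := by
    intro w hw
    have s := (tri_supp h (pP_supp h (pC_supp h hw).1).1).2.1
    change (G.v w.1.1.1.1, G.Z w.1.1.1.1) = (G.v w.1.1.1.2, G.Z w.1.1.1.2)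
    rw [s.1, s.2.1]
  have e1 : Gf (2 ^ J) (CFG80.cfg G).q (bv (CFG80.cfg G).Z (CFG80.cfg G).v₀)
      (CFG80.cfg G).s = Gf (2 ^ J) (pC (2 ^ J) G.p G.Z G.v G.u G.τ)
        (fun w => bv G.Z G.v w.1.1.1.2) (fun w => G.τ w.1.1.1.2) := by
    refine Gf_congr hq ?_ ?_ _ _
    · intro w w' a b e
      exact (hsup w a).symm.trans (e.trans (hsup w' b))
    · intro w w' a b e
      exact (hsup w a).trans (e.trans (hsup w' b).symm)
  rw [e1]
  have hm := CFG80.m0' G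
  have h2 : Marg (dbl (pC (2 ^ J) G.p G.Z G.v G.u G.τ) (fun w => bv G.Z G.v w.1.1.1.2))
      (dbl G.p (bv G.Z G.v)) (fun w => (w.1.1.1.1.2, w.2.1.1.1.2)) :=
    Marg.glue hm hm
  exact h2.ex (fun w => ell (2 ^ J) (G.τ w.1) (G.τ w.2))

end CFG391

/-- (CFG3) Every family has a configuration, with spreads and the energy of `s`. -/
theorem cfg3 (hE : ENG2Stmt) : CFG3Stmt := by
  obtain ⟨C, hC0, hC⟩ := hE
  refine ⟨C + 7, by linarith, ?_⟩
  intro d J G
  have h := hC d J G.Ω G.ζ G.p G.Z G.v G.u G.τ G.isFam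
  refine ⟨CFG80.cfg G, CFG280.okk G hC0 h, CFG80.y01_eq G, ?_, fun N μ τ hs => CFG80.spr G hs⟩
  rw [CFG391.gf_s G]
  have hG0 := Gf_nonneg G.isFam
  have h1 : 0 ≤ C * (Gf (2 ^ J) G.p (bv G.Z G.v) G.τ + 1) := by positivity
  linarith

end Pool.LQ
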